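import Pool.Agent.Lib.MP_72b84e_nt.Two.H53.Lfn

/-!
MP_72b84e_nt, board TWO, row HAS (helper53): the trivial bound for the coefficient `a_p` of
`WeierstrassCurve.LFunction` at a prime of good reduction.
-/

set_option autoImplicit false

namespace Pool.Agent.Lib.MP_72b84e_nt.Two.H53

open IsDedekindDomain IsDedekindDomain.HeightOneSpectrum NumberField IsLocalRing ArithmeticFunction

noncomputable section

/-- an equation has at most two solutions over each `x` -/
theorem card_fiber {k : Type*} [Field k] [Finite k] (W : WeierstrassCurve.Affine k) (a : k) :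
    {y : k | W.Equation a y}.ncard ≤ 2 := by
  classical
  set P : Polynomial k := Polynomial.X ^ 2 + Polynomial.C (W.a₁ * a + W.a₃) * Polynomial.X -
    Polynomial.C (a ^ 3 + W.a₂ * a ^ 2 + W.a₄ * a + W.a₆) with hP
  have hdeg : P.natDegree = 2 := by
    rw [hP]
    compute_degree!
  have hP0 : P ≠ 0 := by
    intro h
    rw [h, Polynomial.natDegree_zero] at hdeg
    omega
  have hsub : {y : k | W.Equation a y} ⊆ (P.roots.toFinset : Set k) := by
    intro y hy
    have h1 := (WeierstrassCurve.Affine.equation_iff a y).1 hy
    rw [Finset.mem_coe, Multiset.mem_toFinset, Polynomial.mem_roots hP0, Polynomial.IsRoot.def, hP]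
    simp only [Polynomial.eval_sub, Polynomial.eval_add, Polynomial.eval_pow, Polynomial.eval_X,
      Polynomial.eval_mul, Polynomial.eval_C]
    linear_combination h1
  calc {y : k | W.Equation a y}.ncard ≤ (P.roots.toFinset : Set k).ncard :=
        Set.ncard_le_ncard hsub (Finset.finite_toSet _)
    _ = P.roots.toFinset.card := Set.ncard_coe_finset _
    _ ≤ Multiset.card P.roots := Multiset.toFinset_card_le _
    _ ≤ P.natDegree := Polynomial.card_roots' P
    _ = 2 := hdeg

/-- the number of points is between `1` and `2 q + 1` -/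
theorem card_point {k : Type*} [Field k] [Finite k] (W : WeierstrassCurve.Affine k) :
    1 ≤ Nat.card W.Point ∧ Nat.card W.Point ≤ 2 * Nat.card k + 1 := by
  classical
  haveI : Fintype k := Fintype.ofFinite k
  let f : W.Point → Option (k × k) := fun P => match P with
    | .zero => none
    | .some x y _ => some (x, y)
  have hf : Function.Injective f := by
    intro P Q h
    cases P <;> cases Q <;> simp_all [f]
  haveI : Finite W.Point := Finite.of_injective f hf
  have h1 : 1 ≤ Nat.card W.Point := by
    haveI : Nonempty W.Point := ⟨WeierstrassCurve.Affine.Point.zero⟩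
    exact Nat.card_pos
  refine ⟨h1, ?_⟩
  set S : Finset (k × k) := Finset.univ.filter fun p => W.Equation p.1 p.2 with hS
  have hcard : S.card ≤ 2 * Fintype.card k := by
    have h2 := Finset.card_le_mul_card_image (f := Prod.fst) S 2 (by
      intro a _
      have h3 : ((S.filter fun p => p.1 = a).image Prod.snd : Finset k) ⊆
          (Set.toFinite {y : k | W.Equation a y}).toFinset := by
        intro y hy
        obtain ⟨p, hp, rfl⟩ := Finset.mem_image.1 hy
        obtain ⟨hp1, hp2⟩ := Finset.mem_filter.1 hp
        rw [Set.Finite.mem_toFinset]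
        have h4 := (Finset.mem_filter.1 hp1).2
        rw [hp2] at h4
        exact h4
      have h5 : ((S.filter fun p => p.1 = a).image Prod.snd).card =
          (S.filter fun p => p.1 = a).card := by
        refine Finset.card_image_of_injOn ?_
        intro p hp r hr hpr
        have hp2 := (Finset.mem_filter.1 (Finset.mem_coe.1 hp)).2
        have hr2 := (Finset.mem_filter.1 (Finset.mem_coe.1 hr)).2
        exact Prod.ext (hp2.trans hr2.symm) hpr
      rw [← h5]
      refine (Finset.card_le_card h3).trans ?_
      rw [← Set.ncard_eq_toFinset_card]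
      exact card_fiber W a)
    refine h2.trans (Nat.mul_le_mul_left 2 ?_)
    exact Finset.card_le_univ _
  -- the map to the affine solutions and the point at infinity
  have h6 : Nat.card W.Point = (Set.range f).ncard := by
    rw [← Nat.card_range_of_injective hf, Nat.card_coe_set_eq]
  have h7 : Set.range f ⊆ ((insert none (S.image some) : Finset (Option (k × k))) :
      Set (Option (k × k))) := by
    rintro _ ⟨P, rfl⟩
    rw [Finset.mem_coe, Finset.mem_insert, Finset.mem_image]
    cases P with
    | zero => exact Or.inl rfl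
    | some x y h =>
      refine Or.inr ⟨(x, y), ?_, rfl⟩
      rw [hS, Finset.mem_filter]
      exact ⟨Finset.mem_univ _, h.1⟩
  have h8 : (Set.range f).ncard ≤ (insert none (S.image some) : Finset (Option (k × k))).card := by
    refine (Set.ncard_le_ncard h7 (Finset.finite_toSet _)).trans ?_
    rw [Set.ncard_coe_finset]
  have h9 : (insert none (S.image some) : Finset (Option (k × k))).card ≤ S.card + 1 :=
    (Finset.card_insert_le _ _).trans (Nat.succ_le_succ Finset.card_image_le)
  have h10 : Nat.card k = Fintype.card k := Nat.card_eq_fintype_card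
  omega

/-- the coefficient at a prime of good reduction -/
theorem lfn_ap (E : WeierstrassCurve ℚ) (v : Pl) (hv : GoodAt E v) :
    E.LFunction (pr v) = (pr v : ℤ) + 1 -
      (Nat.card ((((E.baseChange (v.adicCompletion ℚ)).minimal
        (v.adicCompletionIntegers ℚ)).reduction
          (v.adicCompletionIntegers ℚ)).toAffine.Point) : ℤ) := by
  have h1 := lfn_pow E v 1
  rw [pow_one] at h1
  rw [h1]
  have h2 : (E.baseChange (v.adicCompletion ℚ)).localPolynomial (v.adicCompletionIntegers ℚ) =
      1 - Polynomial.C ((pr v : ℤ) + 1 - (Nat.card ((((E.baseChange (v.adicCompletion ℚ)).minimal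
        (v.adicCompletionIntegers ℚ)).reduction
          (v.adicCompletionIntegers ℚ)).toAffine.Point) : ℤ)) * Polynomial.X +
        Polynomial.C (pr v : ℤ) * Polynomial.X ^ 2 := by
    unfold GoodAt at hv
    unfold WeierstrassCurve.localPolynomial
    rw [if_pos hv, card_pl]
  obtain ⟨a, ha⟩ : ∃ a : ℤ, (pr v : ℤ) + 1 -
      (Nat.card ((((E.baseChange (v.adicCompletion ℚ)).minimal
        (v.adicCompletionIntegers ℚ)).reduction
          (v.adicCompletionIntegers ℚ)).toAffine.Point) : ℤ) = a := ⟨_, rfl⟩
  rw [ha] at h2 ⊢
  have h3 := mul_loc E v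
  rw [h2] at h3
  have h4 : (((1 - Polynomial.C a * Polynomial.X + Polynomial.C (pr v : ℤ) * Polynomial.X ^ 2 :
      Polynomial ℤ)) : PowerSeries ℤ) = 1 - PowerSeries.C a * PowerSeries.X +
      PowerSeries.C (pr v : ℤ) * PowerSeries.X ^ 2 := by
    push_cast
    rfl
  rw [h4] at h3
  have h5 : loc E v = 1 + PowerSeries.C a * (loc E v * PowerSeries.X) -
      PowerSeries.C (pr v : ℤ) * (loc E v * PowerSeries.X ^ 2) := by
    linear_combination h3
  have h0 : PowerSeries.coeff 0 (loc E v) = 1 := by
    rw [PowerSeries.coeff_zero_eq_constantCoeff_apply]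
    exact loc_zero E v
  have h6 := congrArg (PowerSeries.coeff 1) h5
  rw [map_sub, map_add, PowerSeries.coeff_C_mul, PowerSeries.coeff_C_mul,
    show (1 : ℕ) = 0 + 1 from rfl, PowerSeries.coeff_succ_mul_X, h0,
    PowerSeries.coeff_mul_X_pow', if_neg (by omega), PowerSeries.coeff_one,
    if_neg (by omega)] at h6
  rw [show (1 : ℕ) = 0 + 1 from rfl, h6]
  ring

/-- the trivial bound `|a_p| ≤ p` at the primes which do not divide `N` -/
theorem lfn_bound (E : WeierstrassCurve ℚ) (N : ℕ) (hE : GoodOutside E N) (p : ℕ) (hp : p.Prime)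
    (hN : ¬ p ∣ N) : E.LFunction p ≤ p ∧ -(p : ℤ) ≤ E.LFunction p := by
  obtain ⟨v, rfl⟩ := pr_surj hp
  have hv : GoodAt E v := hE v fun h => hN ((pr_dvd_iff v N).2 h)
  rw [lfn_ap E v hv]
  haveI : Finite (ResidueField (v.adicCompletionIntegers ℚ)) := by
    refine Nat.finite_of_card_ne_zero ?_
    rw [card_pl]
    exact (pr_prime v).ne_zero
  obtain ⟨h1, h2⟩ := card_point ((((E.baseChange (v.adicCompletion ℚ)).minimal
        (v.adicCompletionIntegers ℚ)).reduction (v.adicCompletionIntegers ℚ)).toAffine)
  rw [card_pl] at h2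
  constructor <;> omega

end

end Pool.Agent.Lib.MP_72b84e_nt.Two.H53
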