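import Mathlib

/-!
MP_72b84e_nt, board TWO, row LFN (helper53): Mathlib's `WeierstrassCurve.LFunction` over `ℚ` is
multiplicative, and satisfies the Hecke recursion at the primes of good reduction.
-/

set_option autoImplicit false

namespace Pool.Agent.Lib.MP_72b84e_nt.Two.H53

open IsDedekindDomain IsDedekindDomain.HeightOneSpectrum NumberField IsLocalRing ArithmeticFunction

noncomputable section

/-! ### the places of `ℚ` -/

/-- the finite places of `ℚ` -/
abbrev Pl : Type := HeightOneSpectrum (𝓞 ℚ)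

/-- the prime number of a place -/
def pr (v : Pl) : ℕ := (Rat.HeightOneSpectrum.primesEquiv v : Nat.Primes)

theorem pr_prime (v : Pl) : (pr v).Prime := (Rat.HeightOneSpectrum.primesEquiv v).2

theorem pr_inj {v w : Pl} (h : pr v = pr w) : v = w :=
  Rat.HeightOneSpectrum.primesEquiv.injective (Subtype.ext h)

theorem pr_surj {q : ℕ} (hq : q.Prime) : ∃ v : Pl, pr v = q := by
  obtain ⟨v, hv⟩ := (Rat.HeightOneSpectrum.primesEquiv (R := 𝓞 ℚ)).surjective
    (⟨q, hq⟩ : Nat.Primes)
  exact ⟨v, congrArg Subtype.val hv⟩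

/-- the residue field has `pr v` elements -/
theorem card_pl (v : Pl) : Nat.card (ResidueField (v.adicCompletionIntegers ℚ)) = pr v := by
  haveI : Fact ((Rat.HeightOneSpectrum.primesEquiv v : Nat.Primes) : ℕ).Prime :=
    ⟨(Rat.HeightOneSpectrum.primesEquiv v).2⟩
  have e := (ResidueField.mapEquiv
    (Rat.HeightOneSpectrum.adicCompletionIntegers.padicIntEquiv v).toRingEquiv).trans
    (PadicInt.residueField (p := ((Rat.HeightOneSpectrum.primesEquiv v : Nat.Primes) : ℕ)))
  rw [Nat.card_congr e.toEquiv, Nat.card_zmod]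
  rfl

instance north : Northcott pr where
  finite_le b := by
    refine Set.Finite.of_finite_image (f := pr) ?_ (fun v _ w _ h => pr_inj h)
    refine (Set.finite_Iic b).subset ?_
    rintro _ ⟨v, hv, rfl⟩
    exact hv

/-! ### the local factors -/

/-- the local power series -/
def loc (E : WeierstrassCurve ℚ) (v : Pl) : PowerSeries ℤ :=
  (E.baseChange (v.adicCompletion ℚ)).localPowerSeries (v.adicCompletionIntegers ℚ)

theorem localPolynomial_zero (E : WeierstrassCurve ℚ) (v : Pl) :
    ((E.baseChange (v.adicCompletion ℚ)).localPolynomial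
      (v.adicCompletionIntegers ℚ)).coeff 0 = 1 := by
  unfold WeierstrassCurve.localPolynomial
  split_ifs <;> simp

theorem mul_loc (E : WeierstrassCurve ℚ) (v : Pl) :
    (((E.baseChange (v.adicCompletion ℚ)).localPolynomial
      (v.adicCompletionIntegers ℚ) : Polynomial ℤ) : PowerSeries ℤ) * loc E v = 1 := by
  unfold loc WeierstrassCurve.localPowerSeries
  refine PowerSeries.mul_invOfUnit _ _ ?_
  rw [Units.val_one, Polynomial.constantCoeff_coe]
  exact localPolynomial_zero E v

theorem loc_zero (E : WeierstrassCurve ℚ) (v : Pl) :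
    PowerSeries.constantCoeff (loc E v) = 1 := by
  unfold loc WeierstrassCurve.localPowerSeries
  rw [PowerSeries.constantCoeff_invOfUnit]
  simp

theorem lfn_eq (E : WeierstrassCurve ℚ) :
    E.LFunction = eulerProduct fun v : Pl => ofPowerSeries (pr v) (loc E v) := by
  unfold WeierstrassCurve.LFunction
  congr 1
  funext v
  unfold WeierstrassCurve.localEulerFactor loc
  rw [card_pl]

/-- the L-function of a Weierstrass curve over `ℚ` is multiplicative -/
theorem lfn_mult (E : WeierstrassCurve ℚ) : E.LFunction.IsMultiplicative := by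
  rw [lfn_eq]
  refine isMultiplicative_eulerProduct _ fun v => ?_
  exact isMultiplicative_ofPowerSeries_of_isPrimePow _ (pr_prime v).isPrimePow _ (loc_zero E v)

/-! ### the values at the powers of a prime -/

/-- equal to `1` on the powers of `q` -/
def Tr (q : ℕ) (g : ArithmeticFunction ℤ) : Prop := g 1 = 1 ∧ ∀ j, 0 < j → g (q ^ j) = 0

theorem Tr.mul {q : ℕ} (hq : q.Prime) {g : ArithmeticFunction ℤ} (hg : Tr q g)
    (h : ArithmeticFunction ℤ) (k : ℕ) : (g * h) (q ^ k) = h (q ^ k) := by
  rw [mul_apply]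
  have hne : q ^ k ≠ 0 := pow_ne_zero _ hq.ne_zero
  rw [Finset.sum_eq_single (1, q ^ k)]
  · rw [hg.1, one_mul]
  · intro x hx hx1
    have hx' := Nat.mem_divisorsAntidiagonal.1 hx
    obtain ⟨i, hi, hxi⟩ := (Nat.dvd_prime_pow hq).1 (Dvd.intro _ hx'.1)
    rcases Nat.eq_zero_or_pos i with h0 | h0
    · exfalso
      apply hx1
      have h1 : x.1 = 1 := by rw [hxi, h0, pow_zero]
      have h2 : x.2 = q ^ k := by
        rw [← hx'.1, h1, one_mul]
      exact Prod.ext h1 h2
    · rw [hxi, hg.2 i h0, zero_mul]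
  · intro h1
    exact absurd (Nat.mem_divisorsAntidiagonal.2 ⟨one_mul _, hne⟩) h1

theorem tr_one (q : ℕ) (hq : q.Prime) : Tr q (1 : ArithmeticFunction ℤ) := by
  refine ⟨one_one, fun j hj => one_apply_ne ?_⟩
  exact (Nat.one_lt_pow hj.ne' hq.one_lt).ne'

theorem tr_mul {q : ℕ} (hq : q.Prime) {g h : ArithmeticFunction ℤ} (hg : Tr q g) (hh : Tr q h) :
    Tr q (g * h) := by
  have h1 := hg.mul hq h
  refine ⟨?_, fun j hj => ?_⟩
  · have h2 := h1 0
    rw [pow_zero] at h2
    rw [h2, hh.1]
  · rw [h1 j, hh.2 j hj]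

theorem tr_of {q r : ℕ} (hq : q.Prime) (hr : r.Prime) (hqr : r ≠ q) (f : PowerSeries ℤ)
    (hf : PowerSeries.constantCoeff f = 1) : Tr q (ofPowerSeries r f) := by
  refine ⟨?_, fun j hj => ?_⟩
  · rw [ofPowerSeries_apply_one, hf]
  · rw [ofPowerSeries_apply hr.one_lt, Function.extend_apply', Pi.zero_apply]
    rintro ⟨k, hk⟩
    have hk' : r ^ k = q ^ j := hk
    rcases Nat.eq_zero_or_pos k with h0 | h0
    · rw [h0, pow_zero] at hk'
      exact (Nat.one_lt_pow hj.ne' hq.one_lt).ne hk'
    · have h1 : r ∣ q ^ j := by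
        rw [← hk']
        exact dvd_pow_self _ h0.ne'
      exact hqr ((Nat.prime_dvd_prime_iff_eq hr hq).1 (hr.dvd_of_dvd_pow h1))

theorem lfn_pow (E : WeierstrassCurve ℚ) (v : Pl) (k : ℕ) :
    E.LFunction (pr v ^ k) = PowerSeries.coeff k (loc E v) := by
  classical
  rw [lfn_eq]
  have h1 := tendsTo_eulerProduct_ofPowerSeries pr (loc E) (loc_zero E) (pr v ^ k)
  obtain ⟨s, hs, hs1⟩ := (h1.and (Filter.eventually_ge_atTop {v})).exists
  have hv : v ∈ s := Finset.singleton_subset_iff.1 hs1
  rw [← hs, ← Finset.prod_erase_mul _ _ hv]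
  have hT : Tr (pr v) (∏ i ∈ s.erase v, ofPowerSeries (pr i) (loc E i)) := by
    refine Finset.prod_induction _ (Tr (pr v)) (fun g h hg hh => tr_mul (pr_prime v) hg hh)
      (tr_one _ (pr_prime v)) ?_
    intro i hi
    exact tr_of (pr_prime v) (pr_prime i) (fun h => (Finset.mem_erase.1 hi).1 (pr_inj h)) _
      (loc_zero E i)
  rw [hT.mul (pr_prime v) _ k, ofPowerSeries_apply_pow (pr_prime v).one_lt]

/-! ### good reduction -/

/-- good reduction at the place `v` -/
def GoodAt (E : WeierstrassCurve ℚ) (v : Pl) : Prop :=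
  ((E.baseChange (v.adicCompletion ℚ)).minimal (v.adicCompletionIntegers ℚ)).HasGoodReduction
    (v.adicCompletionIntegers ℚ)

theorem loc_rec (E : WeierstrassCurve ℚ) (v : Pl) (hv : GoodAt E v) : ∃ a : ℤ,
    PowerSeries.coeff 0 (loc E v) = 1 ∧ PowerSeries.coeff 1 (loc E v) = a ∧
    ∀ k, PowerSeries.coeff (k + 2) (loc E v) + pr v * PowerSeries.coeff k (loc E v) =
      a * PowerSeries.coeff (k + 1) (loc E v) := by
  obtain ⟨a, ha⟩ : ∃ a : ℤ, (E.baseChange (v.adicCompletion ℚ)).localPolynomial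
      (v.adicCompletionIntegers ℚ) =
      1 - Polynomial.C a * Polynomial.X + Polynomial.C (pr v : ℤ) * Polynomial.X ^ 2 := by
    unfold GoodAt at hv
    unfold WeierstrassCurve.localPolynomial
    rw [if_pos hv, card_pl]
    exact ⟨_, rfl⟩
  have h1 := mul_loc E v
  rw [ha] at h1
  have h2 : (((1 - Polynomial.C a * Polynomial.X + Polynomial.C (pr v : ℤ) * Polynomial.X ^ 2 :
      Polynomial ℤ)) : PowerSeries ℤ) = 1 - PowerSeries.C a * PowerSeries.X +
      PowerSeries.C (pr v : ℤ) * PowerSeries.X ^ 2 := by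
    push_cast
    rfl
  rw [h2] at h1
  have h3 : loc E v = 1 + PowerSeries.C a * (loc E v * PowerSeries.X) -
      PowerSeries.C (pr v : ℤ) * (loc E v * PowerSeries.X ^ 2) := by
    linear_combination h1
  have h0 : PowerSeries.coeff 0 (loc E v) = 1 := by
    rw [PowerSeries.coeff_zero_eq_constantCoeff_apply]
    exact loc_zero E v
  refine ⟨a, h0, ?_, fun k => ?_⟩
  · have h5 := congrArg (PowerSeries.coeff 1) h3
    rw [map_sub, map_add, PowerSeries.coeff_C_mul, PowerSeries.coeff_C_mul,
      show (1 : ℕ) = 0 + 1 from rfl, PowerSeries.coeff_succ_mul_X, h0,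
      PowerSeries.coeff_mul_X_pow', if_neg (by omega), PowerSeries.coeff_one,
      if_neg (by omega)] at h5
    rw [show (1 : ℕ) = 0 + 1 from rfl, h5]
    ring
  · have h5 := congrArg (PowerSeries.coeff (k + 2)) h3
    have h4 : PowerSeries.coeff (k + 1 + 1) (1 : PowerSeries ℤ) = 0 := by
      rw [PowerSeries.coeff_one, if_neg (by omega)]
    rw [map_sub, map_add, PowerSeries.coeff_C_mul, PowerSeries.coeff_C_mul,
      show (k + 2 : ℕ) = (k + 1) + 1 from rfl, PowerSeries.coeff_succ_mul_X,
      PowerSeries.coeff_mul_X_pow', h4, if_pos (by omega), show k + 1 + 1 - 2 = k from rfl] at h5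
    rw [show (k + 2 : ℕ) = (k + 1) + 1 from rfl]
    linear_combination h5

/-- the recursion at a place of good reduction -/
theorem lfn_rel_place (E : WeierstrassCurve ℚ) (v : Pl) (hv : GoodAt E v) (n : ℕ) :
    E.LFunction (pr v * n) + (pr v : ℤ) * (if pr v ∣ n then E.LFunction (n / pr v) else 0) =
      E.LFunction (pr v) * E.LFunction n := by
  obtain ⟨a, h0, h1, hrec⟩ := loc_rec E v hv
  have hq := pr_prime v
  have hL1 : E.LFunction (pr v) = a := by
    have := lfn_pow E v 1
    rw [pow_one] at this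
    rw [this, h1]
  rcases Nat.eq_zero_or_pos n with hn | hn
  · subst hn
    simp
  obtain ⟨k, m, hm, hnm⟩ := Nat.exists_eq_pow_mul_and_not_dvd hn.ne' (pr v) hq.ne_one
  have hcop : ∀ j, Nat.Coprime (pr v ^ j) m := fun j =>
    Nat.Coprime.pow_left j ((Nat.Prime.coprime_iff_not_dvd hq).2 hm)
  have hmul : ∀ j, E.LFunction (pr v ^ j * m) = E.LFunction (pr v ^ j) * E.LFunction m :=
    fun j => (lfn_mult E).map_mul_of_coprime (hcop j)
  rw [hL1, hnm, ← mul_assoc, ← pow_succ', hmul, hmul]
  rcases k with _ | k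
  · rw [pow_zero, one_mul, if_neg hm, lfn_pow, zero_add, h1]
    have h2 := lfn_pow E v 0
    rw [pow_zero, h0] at h2
    rw [h2]
    ring
  · have h2 : pr v ∣ pr v ^ (k + 1) * m := (dvd_pow_self _ (by omega)).mul_right _
    have h3 : pr v ^ (k + 1) * m / pr v = pr v ^ k * m := by
      rw [pow_succ', mul_assoc]
      exact Nat.mul_div_cancel_left _ hq.pos
    rw [if_pos h2, h3, hmul, lfn_pow, lfn_pow, lfn_pow]
    linear_combination (E.LFunction m) * hrec k

/-! ### integral models -/

/-- the curve over `ℚ` of an integral equation -/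
def ofInt (E : WeierstrassCurve ℤ) : WeierstrassCurve ℚ := E.map (Int.castRingHom ℚ)

theorem good_of_disc (E : WeierstrassCurve ℤ) (v : Pl) (hv : ¬ (pr v : ℤ) ∣ E.Δ) :
    GoodAt (ofInt E) v := by
  haveI : Fact ((Rat.HeightOneSpectrum.primesEquiv v : Nat.Primes) : ℕ).Prime :=
    ⟨(Rat.HeightOneSpectrum.primesEquiv v).2⟩
  haveI : Fact (Nat.Prime (pr v)) := ⟨pr_prime v⟩
  set R := v.adicCompletionIntegers ℚ with hR
  set K := v.adicCompletion ℚ with hK
  set W : WeierstrassCurve K := (ofInt E).baseChange K with hW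
  have hWi : W = (E.map (Int.castRingHom R)).baseChange K := by
    rw [hW]
    unfold ofInt WeierstrassCurve.baseChange
    rw [WeierstrassCurve.map_map, WeierstrassCurve.map_map]
    congr 1
    exact RingHom.ext_int _ _
  have hint : WeierstrassCurve.IsIntegral R W := ⟨⟨_, hWi⟩⟩
  -- the discriminant is a unit
  have hunit : IsUnit (E.map (Int.castRingHom R)).Δ := by
    rw [WeierstrassCurve.map_Δ]
    have e := (Rat.HeightOneSpectrum.adicCompletionIntegers.padicIntEquiv v).toRingEquiv
    have h1 : e ((Int.castRingHom R) E.Δ) = (E.Δ : ℤ_[pr v]) := by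
      rw [eq_intCast, map_intCast]
      rfl
    have h2 : IsUnit (E.Δ : ℤ_[pr v]) := by
      rw [PadicInt.isUnit_iff]
      refine le_antisymm (PadicInt.norm_le_one _) ?_
      by_contra hcon
      push Not at hcon
      exact hv ((PadicInt.norm_int_lt_one_iff_dvd _).1 hcon)
    have h3 : IsUnit (e ((Int.castRingHom R) E.Δ)) := by
      rw [h1]
      exact h2
    exact (MulEquiv.isUnit_map e).1 h3
  have hval : IsDedekindDomain.HeightOneSpectrum.valuation K
      (IsDiscreteValuationRing.maximalIdeal R) W.Δ = 1 := by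
    rw [hWi, WeierstrassCurve.baseChange, WeierstrassCurve.map_Δ]
    refine (valuation_eq_one_iff_notMem _).2 ?_
    intro hmem
    exact (mem_nonunits_iff.1 ((mem_maximalIdeal _).1 hmem)) hunit
  have haux : ((WeierstrassCurve.valuation_Δ_aux R W : { v : WithZero (Multiplicative ℤ) // v ≤ 1 }) :
      WithZero (Multiplicative ℤ)) = 1 := by
    rw [WeierstrassCurve.valuation_Δ_aux_eq_of_isIntegral, hval]
  obtain ⟨C, hC⟩ : ∃ C : WeierstrassCurve.VariableChange K, W.minimal R = C • W := ⟨_, rfl⟩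
  have hmin : WeierstrassCurve.IsMinimal R (W.minimal R) := inferInstance
  have hmax := hmin.val_Δ_maximal
  have hC' : C⁻¹ • W.minimal R = W := by
    rw [hC, inv_smul_smul]
  have h2 := hmax.2 (j := C⁻¹) (by
    change WeierstrassCurve.IsIntegral R (C⁻¹ • W.minimal R)
    rw [hC']
    exact hint) (by
    change WeierstrassCurve.valuation_Δ_aux R ((1 : WeierstrassCurve.VariableChange K) •
      W.minimal R) ≤ WeierstrassCurve.valuation_Δ_aux R (C⁻¹ • W.minimal R)
    rw [hC', ← Subtype.coe_le_coe, haux]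
    exact (WeierstrassCurve.valuation_Δ_aux R _).2)
  have h3 : WeierstrassCurve.valuation_Δ_aux R (C⁻¹ • W.minimal R) ≤
    WeierstrassCurve.valuation_Δ_aux R ((1 : WeierstrassCurve.VariableChange K) •
      W.minimal R) := h2
  rw [hC', one_smul, ← Subtype.coe_le_coe, haux,
    WeierstrassCurve.valuation_Δ_aux_eq_of_isIntegral] at h3
  change WeierstrassCurve.HasGoodReduction R (W.minimal R)
  refine ⟨le_antisymm ?_ h3⟩
  rw [← WeierstrassCurve.valuation_Δ_aux_eq_of_isIntegral]
  exact (WeierstrassCurve.valuation_Δ_aux R _).2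

/-- the Hecke recursion of the coefficients of the L-function of the curve of an integral
equation, at the primes which do not divide its discriminant -/
theorem lfn_rel (E : WeierstrassCurve ℤ) {q : ℕ} (hq : q.Prime) (hd : ¬ (q : ℤ) ∣ E.Δ) (n : ℕ) :
    (ofInt E).LFunction (q * n) + (q : ℤ) * (if q ∣ n then (ofInt E).LFunction (n / q) else 0) =
      (ofInt E).LFunction q * (ofInt E).LFunction n := by
  obtain ⟨v, rfl⟩ := pr_surj hq
  exact lfn_rel_place (ofInt E) v (good_of_disc E v hd) n

/-- a prime divides `N` iff `N` lies in the ideal of its place -/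
theorem pr_dvd_iff (v : Pl) (N : ℕ) : pr v ∣ N ↔ ((N : ℕ) : 𝓞 ℚ) ∈ v.asIdeal := by
  have h1 := Rat.HeightOneSpectrum.natGenerator_dvd_iff v (n := N)
  have h2 : ((N : ℤ) ∈ v.asIdeal.map (Rat.IsIntegralClosure.intEquiv (𝓞 ℚ))) ↔
      ((N : ℕ) : 𝓞 ℚ) ∈ v.asIdeal := by
    rw [← map_natCast (Rat.IsIntegralClosure.intEquiv (𝓞 ℚ)) N]
    exact Ideal.apply_mem_of_equiv_iff
  exact h1.trans h2

/-- The curve has good reduction (Mathlib's) at all places prime to `N`. -/
def GoodOutside (E : WeierstrassCurve ℚ) (N : ℕ) : Prop :=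
  ∀ v : HeightOneSpectrum (𝓞 ℚ), ((N : ℕ) : 𝓞 ℚ) ∉ v.asIdeal →
    ((E.baseChange (v.adicCompletion ℚ)).minimal (v.adicCompletionIntegers ℚ)).HasGoodReduction
      (v.adicCompletionIntegers ℚ)

/-- the Hecke recursion at the primes which do not divide `N` -/
theorem lfn_rel_out (E : WeierstrassCurve ℚ) (N : ℕ) (hE : GoodOutside E N) (p : ℕ) (hp : p.Prime)
    (hN : ¬ p ∣ N) (n : ℕ) :
    E.LFunction (p * n) + p * (if p ∣ n then E.LFunction (n / p) else 0) =
      E.LFunction p * E.LFunction n := by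
  obtain ⟨v, rfl⟩ := pr_surj hp
  exact lfn_rel_place E v (hE v fun h => hN ((pr_dvd_iff v N).2 h)) n

/-- integral equations: the discriminant divides `N` -/
theorem goodOutside_ofInt (E : WeierstrassCurve ℤ) (N : ℕ) (hN : E.Δ ∣ N) :
    GoodOutside (ofInt E) N := by
  intro v hv
  refine good_of_disc E v fun h => hv ((pr_dvd_iff v N).1 ?_)
  exact_mod_cast h.trans hN

end

end Pool.Agent.Lib.MP_72b84e_nt.Two.H53
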